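import Mathlib
import Pool.Agent.H80.KLDefs
import Pool.Agent.H80.KL

set_option autoImplicit false

namespace Pool.Agent.Results.MP_fe322e_ag.NotGroebner

open Pool.Agent.H80.KL

theorem result (k : Type) [Field k] :
    ∃ (n : ℕ) (u v : Equiv.Perm (Fin n)) (ord : MonomialOrder.{0, 0} (Fin n × Fin n)),
      BruhatLE u v ∧ IsGraded ord ∧ IsDiagonal k ord ∧ ¬ IsGroebner k ord u (defDets k u v) :=
  ⟨5, u, v, ord, bruhat, ord_graded, ord_diagonal k, not_groebner k⟩

end Pool.Agent.Results.MP_fe322e_ag.NotGroebner
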